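import Pool.Agent.Lib.MP_fc2f40_al.Final

/-! Enveloping algebras of Lie algebras with a nontrivial polynomial identity are Ore domains
(MP_fc2f40_al): own form, in all universes, with the division ring of fractions. -/

set_option autoImplicit false

namespace Pool.Agent.Results.MP_fc2f40_al.DivisionRingOfFractions

universe u v

open nonZeroDivisors
open Pool.Agent.Lib.MP_fc2f40_al

/-- `L` is a PI Lie algebra over `K`: some nonzero element `f` of the free Lie algebra on the
variables `x_0, x_1, ...` vanishes at all sequences of elements of `L`. -/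
def IsPI (K : Type u) [Field K] (L : Type v) [LieRing L] [LieAlgebra K L] : Prop :=
  ∃ f : FreeLieAlgebra K ℕ, f ≠ 0 ∧ ∀ a : ℕ → L, FreeLieAlgebra.lift K a f = 0

/-- `R` satisfies the right Ore condition: `aR` and `bR` have a common nonzero element for all
nonzero `a, b`. -/
def RightOre (R : Type*) [Ring R] : Prop :=
  ∀ a b : R, a ≠ 0 → b ≠ 0 → ∃ x y : R, a * x = b * y ∧ a * x ≠ 0

/-- `R` satisfies the left Ore condition: `Ra` and `Rb` have a common nonzero element for all
nonzero `a, b`. -/
def LeftOre (R : Type*) [Ring R] : Prop :=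
  ∀ a b : R, a ≠ 0 → b ≠ 0 → ∃ x y : R, x * a = y * b ∧ x * a ≠ 0

/-- The homomorphism `i : R → D` into a division ring is a classical division ring of fractions:
it is injective, and every element of `D` is both a right fraction `a s⁻¹` and a left fraction
`t⁻¹ b` with `a, b, s, t` in `R` and `s, t` nonzero. -/
def IsDivisionRingOfFractions {R : Type*} [Ring R] {D : Type*} [DivisionRing D]
    (i : R →+* D) : Prop :=
  Function.Injective i ∧ ∀ z : D, (∃ a s : R, s ≠ 0 ∧ z = i a * (i s)⁻¹) ∧
    ∃ b t : R, t ≠ 0 ∧ z = (i t)⁻¹ * i b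

/-- For every Lie algebra `L` (of any dimension, in any universe) over a field `K` (of any
characteristic) that satisfies a nontrivial Lie polynomial identity, the universal enveloping
algebra `U(L)` is a domain which satisfies the right and the left Ore condition, and it has a
classical division ring of fractions. -/
theorem result (K : Type u) [Field K] (L : Type v) [LieRing L] [LieAlgebra K L]
    (hL : IsPI K L) :
    ((1 : UniversalEnvelopingAlgebra K L) ≠ 0 ∧
      ∀ a b : UniversalEnvelopingAlgebra K L, a * b = 0 → a = 0 ∨ b = 0) ∧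
    RightOre (UniversalEnvelopingAlgebra K L) ∧ LeftOre (UniversalEnvelopingAlgebra K L) ∧
    ∃ (D : Type (max u v)) (_ : DivisionRing D) (i : UniversalEnvelopingAlgebra K L →+* D),
      IsDivisionRingOfFractions i := by
  obtain ⟨f, hf, h⟩ := hL
  have hnt : Nontrivial (UniversalEnvelopingAlgebra K L) := PBW.nontrivial_U K L
  have hmul : ∀ a b : UniversalEnvelopingAlgebra K L, a ≠ 0 → b ≠ 0 → a * b ≠ 0 :=
    fun a b ha hb => PBW.mul_ne_zero_U K L a b ha hb
  have hnzd : NoZeroDivisors (UniversalEnvelopingAlgebra K L) :=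
    ⟨fun {a b} hab => by
      by_contra hcon
      push Not at hcon
      exact hmul a b hcon.1 hcon.2 hab⟩
  have hR : ∀ a s : UniversalEnvelopingAlgebra K L, s ≠ 0 →
      ∃ b t : UniversalEnvelopingAlgebra K L, t ≠ 0 ∧ a * t = s * b := by
    intro a s hs
    obtain ⟨b, t, ht, e⟩ := Final.right_ore K L f hf h a s ((Final.mem_nzd_iff K L s).mpr hs)
    exact ⟨b, t, (Final.mem_nzd_iff K L t).mp ht, e⟩
  have hLo : ∀ a s : UniversalEnvelopingAlgebra K L, s ≠ 0 →
      ∃ b t : UniversalEnvelopingAlgebra K L, t ≠ 0 ∧ t * a = b * s := by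
    intro a s hs
    obtain ⟨b, t, ht, e⟩ := Final.left_ore K L f hf h a s ((Final.mem_nzd_iff K L s).mpr hs)
    exact ⟨b, t, (Final.mem_nzd_iff K L t).mp ht, e⟩
  have hOre : Nonempty (OreLocalization.OreSet (UniversalEnvelopingAlgebra K L)⁰) := by
    rw [OreLocalization.nonempty_oreSet_iff_of_noZeroDivisors]
    intro r s
    obtain ⟨b, t, ht, e⟩ := hLo r (s : UniversalEnvelopingAlgebra K L)
      ((Final.mem_nzd_iff K L _).mp s.2)
    exact ⟨b, ⟨t, (Final.mem_nzd_iff K L t).mpr ht⟩, e⟩
  obtain ⟨hO⟩ := hOre
  refine ⟨⟨one_ne_zero, fun a b hab => mul_eq_zero.mp hab⟩, ?_, ?_,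
    OreLocalization (UniversalEnvelopingAlgebra K L)⁰ (UniversalEnvelopingAlgebra K L),
    inferInstance, OreLocalization.numeratorRingHom, ?_, ?_⟩
  · intro a b ha hb
    obtain ⟨y, x, hx, e⟩ := hR a b hb
    exact ⟨x, y, e, hmul a x ha hx⟩
  · intro a b ha hb
    obtain ⟨y, x, hx, e⟩ := hLo a b hb
    exact ⟨x, y, e, hmul x a hx ha⟩
  · exact OreLocalization.numeratorHom_inj (by
      intro s hs
      rw [mem_nonZeroDivisorsLeft_iff]
      intro x hx
      exact (mul_eq_zero.mp hx).resolve_left ((Final.mem_nzd_iff K L s).mp hs))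
  · intro z
    have hinj : Function.Injective (OreLocalization.numeratorRingHom :
        UniversalEnvelopingAlgebra K L →+*
        OreLocalization (UniversalEnvelopingAlgebra K L)⁰ (UniversalEnvelopingAlgebra K L)) :=
      OreLocalization.numeratorHom_inj (by
        intro s hs
        rw [mem_nonZeroDivisorsLeft_iff]
        intro x hx
        exact (mul_eq_zero.mp hx).resolve_left ((Final.mem_nzd_iff K L s).mp hs))
    have hne : ∀ s : UniversalEnvelopingAlgebra K L, s ≠ 0 →
        (OreLocalization.numeratorRingHom s :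
          OreLocalization (UniversalEnvelopingAlgebra K L)⁰
            (UniversalEnvelopingAlgebra K L)) ≠ 0 := by
      intro s hs h0
      exact hs (hinj (h0.trans (map_zero _).symm))
    have hleft : ∃ b t : UniversalEnvelopingAlgebra K L, t ≠ 0 ∧
        z = (OreLocalization.numeratorRingHom t)⁻¹ * OreLocalization.numeratorRingHom b := by
      induction z using OreLocalization.ind with
      | _ r s =>
        refine ⟨r, s, (Final.mem_nzd_iff K L _).mp s.2, ?_⟩
        have h1 : OreLocalization.numeratorRingHom (s : UniversalEnvelopingAlgebra K L) *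
            (r /ₒ s) = OreLocalization.numeratorRingHom r := by
          change ((s : UniversalEnvelopingAlgebra K L) /ₒ 1) * (r /ₒ s) = r /ₒ 1
          exact OreLocalization.mul_cancel
        rw [← h1, inv_mul_cancel_left₀ (hne _ ((Final.mem_nzd_iff K L _).mp s.2))]
    refine ⟨?_, hleft⟩
    obtain ⟨b, t, ht, e⟩ := hleft
    obtain ⟨c, w, hw, e2⟩ := hR b t ht
    refine ⟨c, w, hw, ?_⟩
    rw [e]
    have h3 := congrArg (OreLocalization.numeratorRingHom :
        UniversalEnvelopingAlgebra K L →+*
        OreLocalization (UniversalEnvelopingAlgebra K L)⁰ (UniversalEnvelopingAlgebra K L)) e2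
    rw [map_mul, map_mul] at h3
    rw [inv_mul_eq_iff_eq_mul₀ (hne t ht), ← mul_assoc, ← h3, mul_inv_cancel_right₀ (hne w hw)]

end Pool.Agent.Results.MP_fc2f40_al.DivisionRingOfFractions
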